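import Pool.Agent.Helper24.KG.Pair

/-!
# Existence of the Euler characteristics
-/

set_option autoImplicit false
set_option linter.unusedSectionVars false

open CategoryTheory Limits AlgebraicGeometry MvPolynomial Pool.Agent.Y116.UV
  Pool.Agent.Q282.UM Pool.Agent.Q282.UK Pool.Agent.Helper62.EC Pool.Agent.Helper24.KD
  Pool.Agent.Helper24.KE Pool.Agent.Helper24.KF

open Pool.Agent.Helper24.KZ (alt FinSupp alt_add alt_shift alt_two alt_eq_sum Bdd SumOf)

namespace Pool.Agent.Helper24.KG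

universe w v u

section

variable {C : Type u} [Category.{v} C] [Preadditive C] [HasBinaryBiproducts C] [HasZeroObject C]
  {𝕜 : Type w} [Field 𝕜] {F : C ⥤ ModuleCat.{w} 𝕜} [F.Additive] [HasFiniteBiproducts C]
  {k : Type} [Field k] {D : Weights k C} (hD : IsWeightsF D)

/-- A retract of a finite dimensional space. -/
lemma finite_retract {A B : ModuleCat.{w} 𝕜} (a : A ⟶ B) (b : B ⟶ A) (h : a ≫ b = 𝟙 A)
    (hB : Module.Finite 𝕜 B) : Module.Finite 𝕜 A := by
  refine Module.Finite.of_surjective b.hom fun x => ⟨a.hom x, ?_⟩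
  exact congrArg (fun g => g.hom x) h

include hD

/-- The Euler characteristics are defined. -/
theorem one_existsF {n : ℤ} {N : ℕ} (h : ∀ Y : Sch k, IsSmoothProjective Y →
    topologicalKrullDim Y.left ≤ N → Module.Finite 𝕜 (F.obj ((D.tw n).obj (D.h Y)))) (X : Sch k)
    (hX : FT True X) (hN : topologicalKrullDim X.left ≤ N) : HasChi F D n X := by
  obtain ⟨K, hb, ⟨e⟩, hK⟩ := hD.terms X hX N hN
  have h1 : ∀ i, Module.Finite 𝕜 (F.obj ((D.tw n).obj (K.X i))) := fun i => by
    obtain ⟨M, a, b, hab, hM⟩ := hK i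
    have h2 : Module.Finite 𝕜 (F.obj ((D.tw n).obj M)) := fin_sumOf (D.tw n) (by
      rintro M ⟨Y, a1, a2, ⟨e⟩⟩
      exact finite_iso ⟨F.mapIso ((D.tw n).mapIso e)⟩ (h Y a1 a2)) hM
    refine finite_retract (F.map ((D.tw n).map a)) (F.map ((D.tw n).map b)) ?_ h2
    rw [← F.map_comp, ← (D.tw n).map_comp, hab, (D.tw n).map_id, F.map_id]
  obtain ⟨a, b, hz⟩ := hb
  have h2 := alt_terms (F := F) (K := ((D.tw n).mapHomologicalComplex (ComplexShape.up ℤ)).obj K)
    ⟨a, b, fun i hi => (D.tw n).map_isZero (hz i hi)⟩ h1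
  have h3 : TOne F (onHK (D.tw n) (D.W X)) _ :=
    (tOne F).iso ⟨((D.tw n).mapHomotopyCategory (ComplexShape.up ℤ)).mapIso e.symm⟩
      ⟨h2.1, rfl⟩
  exact (tOne_iff.mp h3).1

/-- The same for open subsets of affine spaces. -/
theorem has_chi {n : ℤ} (h : ∀ Y : Sch k, IsSmoothProjective Y →
    Module.Finite 𝕜 (F.obj ((D.tw n).obj (D.h Y)))) {r : ℕ} (G : MvPolynomial (Fin r) k) :
    HasChi F D n (princ G) := by
  obtain ⟨N, hN⟩ := Pool.Agent.Helper24.KZ.exists_dim_aff (k := k) (Localization.Away G)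
  exact one_existsF hD (N := N) (fun Y hY _ => h Y hY) _ (ft_aff True) hN

end

end Pool.Agent.Helper24.KG
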