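import Pool.Agent.Helper24.KG.Shear

/-!
# Hypersurfaces over finite fields
-/

set_option autoImplicit false
set_option linter.unusedSectionVars false

open CategoryTheory AlgebraicGeometry MvPolynomial Pool.Agent.Y116.UV Pool.Agent.Helper62.EC
  Pool.Agent.Helper24.KE

namespace Pool.Agent.Helper24.KG

/-- The size `deg F / log (deg F + 3)`. -/
noncomputable def szl {k : Type} [Field k] (m : ℕ) (F : MvPolynomial (Fin m) k) : ℝ :=
  ell F.totalDegree

section

variable {k : Type} [Field k] {sep : Prop} {Q : Sch k → ℤ → Prop} (hQ : Dfc sep Q)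
  (hs : ∀ m : ℕ, Q (aff k (MvPolynomial (Fin m) k)) 0)

include hQ in
lemma sh_V {m : ℕ} (h : MvPolynomial (Fin m) k) (p : MvPolynomial (Fin (m + 1)) k) {c : ℤ}
    (hp : Q (V p) c) : Q (V (sh h p)) c := by
  refine isoQ hQ (Ideal.quotientEquivAlg (Ideal.span {p}) (Ideal.span {sh h p}) (sh h) ?_) hp
  rw [Ideal.map_span, Set.image_singleton]
  rfl

include hQ hs

/-- The product of the images of a hypersurface. -/
lemma prod_sh {m : ℕ} (hl : ∀ (A : Type) [CommRing A] [Algebra k A] [Algebra.FiniteType k A],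
    ringKrullDim A + 1 ≤ m → Q (aff k A) 0) {p : MvPolynomial (Fin (m + 1)) k}
    (hp : Irreducible p) (h0 : 0 < p.degreeOf 0) {c : ℤ} (h : Q (V p) c) {ι : Type}
    (f : ι → MvPolynomial (Fin m) k) (hf : ∀ i j, i ≠ j →
      Polynomial.taylor (f i - f j) (finSuccEquiv k m p) ≠ finSuccEquiv k m p) (s : Finset ι) :
    Q (V (∏ i ∈ s, sh (f i) p)) (s.card * c) := by
  classical
  induction s using Finset.induction_on with
  | empty =>
    rw [Finset.prod_empty]
    simp only [Finset.card_empty, Nat.cast_zero, zero_mul]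
    exact empty hQ hs _ (Ideal.Quotient.subsingleton_iff.mpr Ideal.span_singleton_one)
  | insert a s ha ih =>
    rw [Finset.prod_insert ha, Finset.card_insert_of_notMem ha]
    have h1 : IsRelPrime (∏ i ∈ s, sh (f i) p) (sh (f a) p) := by
      refine (IsRelPrime.prod_right fun i hi => sh_coprime hp h0 (hf a i ?_)).symm
      rintro rfl
      exact ha hi
    have h2 : ∏ i ∈ s, sh (f i) p ≠ 0 := by
      rw [Finset.prod_ne_zero_iff]
      exact fun i _ => ((MulEquiv.irreducible_iff (sh (f i))).mpr hp).ne_zero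
    have h3 := two_total hQ _ _ (sh_V hQ (f a) p h) ih (hl _ (dim_coprime h2 h1))
    have h4 : ((s.card + 1 : ℕ) : ℤ) * c = c + s.card * c - 0 := by
      push_cast
      ring
    rw [h4]
    exact h3

omit hQ hs in
lemma log_two_le {q : ℕ} (hq : 2 ≤ q) : (0.5 : ℝ) ≤ Real.log q := by
  have h1 : Real.log 2 ≤ Real.log q := Real.log_le_log (by norm_num) (by exact_mod_cast hq)
  have := Real.log_two_gt_d9
  linarith

omit hQ hs in
/-- The size of the product. -/
lemma size_prod {q n G t D : ℕ} (hq : 2 ≤ q) (hn : 1 ≤ n) (hG : 1 ≤ G)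
    (hD : D ≤ q ^ n * (G * (t + n))) : ell D ≤ (2 * G * (t + 1) : ℝ) * q ^ n := by
  have h1 : ell D ≤ ell ((q ^ n * (G * (t + n)) : ℕ) : ℝ) :=
    ell_mono (Nat.cast_nonneg _) (by exact_mod_cast hD)
  refine h1.trans ?_
  unfold ell
  have hq0 : (1 : ℝ) ≤ q := by exact_mod_cast (by omega : 1 ≤ q)
  have hqn : (1 : ℝ) ≤ (q : ℝ) ^ n := one_le_pow₀ hq0
  have hG' : (1 : ℝ) ≤ G := by exact_mod_cast hG
  have hn' : (1 : ℝ) ≤ n := by exact_mod_cast hn
  have ht' : (0 : ℝ) ≤ t := Nat.cast_nonneg t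
  have h2 : (n : ℝ) * 0.5 ≤ Real.log (((q ^ n * (G * (t + n)) : ℕ) : ℝ) + 3) := by
    have h3 : Real.log ((q : ℝ) ^ n) ≤ Real.log (((q ^ n * (G * (t + n)) : ℕ) : ℝ) + 3) := by
      refine Real.log_le_log (by positivity) ?_
      push_cast
      have h4 : (1 : ℝ) ≤ G * (t + n) := by nlinarith
      nlinarith
    rw [Real.log_pow] at h3
    have h5 := log_two_le hq
    have h6 : (n : ℝ) * 0.5 ≤ n * Real.log q := mul_le_mul_of_nonneg_left h5 (by linarith)
    linarith
  rw [div_le_iff₀ (by nlinarith)]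
  refine le_trans ?_ (mul_le_mul_of_nonneg_left h2 (by positivity))
  push_cast
  have h3 : (G : ℝ) * (t + n) ≤ G * (t + 1) * n := by
    have : (t : ℝ) + n ≤ (t + 1) * n := by nlinarith
    calc (G : ℝ) * (t + n) ≤ G * ((t + 1) * n) := mul_le_mul_of_nonneg_left this (by linarith)
      _ = G * (t + 1) * n := by ring
  have h4 : (q : ℝ) ^ n * (G * (t + n)) ≤ q ^ n * (G * (t + 1) * n) :=
    mul_le_mul_of_nonneg_left h3 (by linarith)
  linarith

variable [Finite k]

/-- Irreducible hypersurfaces, first case. -/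
lemma irrF {m : ℕ} (hl : ∀ (A : Type) [CommRing A] [Algebra k A] [Algebra.FiniteType k A],
    ringKrullDim A + 1 ≤ (m + 1 : ℕ) → Q (aff k A) 0) (h : Small szl Q (m + 2) 1)
    {p : MvPolynomial (Fin (m + 2)) k} (hp : Irreducible p) (h0 : 0 < p.degreeOf 0) :
    Q (V p) 0 := by
  classical
  have := Fintype.ofFinite k
  obtain ⟨t, ht⟩ := fam_good h0
  obtain ⟨e, he, hB⟩ := h.fn hQ
  have h1 := he p
  rcases eq_or_ne (e p) 0 with hc | hc
  · rwa [hc] at h1
  exfalso
  set c := e p with hcc
  have hc1 : (1 : ℝ) ≤ |(c : ℝ)| := by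
    have : (1 : ℤ) ≤ |c| := Int.one_le_abs hc
    exact_mod_cast this
  set q := Fintype.card k with hq
  have hq2 : 2 ≤ q := Fintype.one_lt_card
  set G := p.totalDegree with hGdef
  have hG : 1 ≤ G := (Nat.succ_le_of_lt h0).trans (degreeOf_le_totalDegree p 0)
  have hG' : (1 : ℝ) ≤ G := by exact_mod_cast hG
  set K : ℝ := 2 * G * (t + 1) with hK
  have hK0 : 0 < K := by positivity
  obtain ⟨B, hB⟩ := hB (1 / (2 * K)) (by positivity)
  obtain ⟨n, hn⟩ := exists_nat_gt (2 * |B|)
  have hn1 : 1 ≤ n := by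
    by_contra hcon
    have : n = 0 := by omega
    rw [this, Nat.cast_zero] at hn
    linarith [abs_nonneg B]
  have h2 := hQ.uniq (prod_sh hQ hs hl hp h0 h1 (fun a : Fin n → k => fam t n a)
    (fun a b hab => ht n a b hab) Finset.univ) (he _)
  have hcard : (Finset.univ : Finset (Fin n → k)).card = q ^ n := by
    rw [Finset.card_univ, Fintype.card_fun, Fintype.card_fin]
  rw [hcard] at h2
  have h3 := hB (∏ a : Fin n → k, sh (fam t n a) p)
  rw [← h2, pow_one] at h3
  push_cast at h3
  have hqn : (0 : ℝ) < (q : ℝ) ^ n := by positivity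
  rw [abs_mul, abs_of_pos hqn] at h3
  have h4 : (q : ℝ) ^ n ≤ q ^ n * |(c : ℝ)| := by nlinarith
  have h5 : (∏ a : Fin n → k, sh (fam t n a) p).totalDegree ≤ q ^ n * (G * (t + n)) := by
    refine (totalDegree_finsetProd _ _).trans ?_
    refine (Finset.sum_le_sum fun a _ => deg_sh (fam t n a) (M := t + n) (by omega)
      (fam_deg a) p).trans (le_of_eq ?_)
    rw [Finset.sum_const, hcard, smul_eq_mul]
  have h6 : szl (m + 2) (∏ a : Fin n → k, sh (fam t n a) p) ≤ K * q ^ n :=
    size_prod hq2 hn1 hG h5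
  have h7 : 1 / (2 * K) * szl (m + 2) (∏ a : Fin n → k, sh (fam t n a) p) ≤ (q : ℝ) ^ n / 2 := by
    refine (mul_le_mul_of_nonneg_left h6 (by positivity)).trans (le_of_eq ?_)
    field_simp
  have h8 : (n : ℝ) ≤ (q : ℝ) ^ n := by
    have : n < q ^ n := Nat.lt_pow_self (by omega)
    exact_mod_cast this.le
  linarith [le_abs_self B]

/-- Irreducible hypersurfaces. -/
lemma irrF' {m : ℕ} (hl : ∀ (A : Type) [CommRing A] [Algebra k A] [Algebra.FiniteType k A],
    ringKrullDim A + 1 ≤ (m + 1 : ℕ) → Q (aff k A) 0) (h : Small szl Q (m + 2) 1)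
    {p : MvPolynomial (Fin (m + 2)) k} (hp : Irreducible p) : Q (V p) 0 := by
  have h1 : ∃ l, 0 < p.degreeOf l := by
    by_contra hcon
    push Not at hcon
    have h2 : p.totalDegree = 0 := by
      rw [totalDegree_eq_zero_iff]
      intro s hs x
      have h3 := monomial_le_degreeOf x hs
      have h4 := hcon x
      omega
    rw [totalDegree_eq_zero_iff_eq_C] at h2
    have h3 : coeff 0 p ≠ 0 := by
      intro h4
      rw [h4, C_0] at h2
      exact hp.ne_zero h2
    apply hp.not_isUnit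
    rw [h2]
    exact (isUnit_iff_ne_zero.mpr h3).map C
  obtain ⟨l, hl0⟩ := h1
  let e : MvPolynomial (Fin (m + 2)) k ≃ₐ[k] MvPolynomial (Fin (m + 2)) k :=
    renameEquiv k (Equiv.swap 0 l)
  have h2 : Irreducible (e p) := (MulEquiv.irreducible_iff e).mpr hp
  have h3 : 0 < (e p).degreeOf 0 := by
    have h4 := degreeOf_rename_of_injective (p := p) (Equiv.swap 0 l).injective l
    rw [Equiv.swap_apply_right] at h4
    change 0 < (rename (Equiv.swap 0 l) p).degreeOf 0
    rwa [h4]
  have h4 := irrF hQ hs hl h h2 h3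
  refine isoQ hQ (Ideal.quotientEquivAlg (Ideal.span {p}) (Ideal.span {e p}) e ?_).symm h4
  rw [Ideal.map_span, Set.image_singleton]
  rfl

/-- All hypersurfaces. -/
theorem hypF {m : ℕ} (hl : ∀ (A : Type) [CommRing A] [Algebra k A] [Algebra.FiniteType k A],
    ringKrullDim A + 1 ≤ (m + 1 : ℕ) → Q (aff k A) 0) (h : Small szl Q (m + 2) 1)
    (F : MvPolynomial (Fin (m + 2)) k) : Q (V F) 0 := by
  induction F using UniqueFactorizationMonoid.induction_on_coprime with
  | h0 =>
    have h1 : Ideal.span {(0 : MvPolynomial (Fin (m + 2)) k)} = ⊥ :=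
      Ideal.span_singleton_eq_bot.mpr rfl
    unfold V
    rw [h1]
    exact isoQ hQ (AlgEquiv.quotientBot k _).symm (hs _)
  | h1 hx =>
    exact empty hQ hs _ (Ideal.Quotient.subsingleton_iff.mpr (Ideal.span_singleton_eq_top.mpr hx))
  | hpr i hp =>
    rename_i p
    have h1 : Q (V p) 0 := irrF' hQ hs hl h hp.irreducible
    induction i with
    | zero =>
      rw [pow_zero]
      exact empty hQ hs _ (Ideal.Quotient.subsingleton_iff.mpr Ideal.span_singleton_one)
    | succ i ih =>
      rcases Nat.eq_zero_or_pos i with hi | hi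
      · subst hi
        rwa [zero_add, pow_one]
      · rw [pow_succ]
        have h2 : Ideal.span {p} ⊔ Ideal.span {p ^ i} = Ideal.span {p} := by
          rw [sup_eq_left, Ideal.span_singleton_le_span_singleton]
          exact dvd_pow_self p hi.ne'
        have h3 := two_total hQ (p ^ i) p (a := 0) (b := 0) (d := 0) ih h1 (by rw [h2]; exact h1)
        simpa using h3
  | hcp hxy hx hy =>
    rename_i x y
    rcases eq_or_ne y 0 with h0 | h0
    · rw [h0, mul_zero, ← h0]
      exact hy
    · have h3 := two_total hQ x y hx hy (hl _ (dim_coprime h0 hxy.symm))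
      simpa using h3

omit [Finite k] in
/-- One variable less. -/
lemma less {m : ℕ} (h : Small szl Q (m + 1) 1) : Small szl Q m 1 := by
  intro ε hε
  obtain ⟨B, hB⟩ := h (ε / 2) (by positivity)
  refine ⟨2 * |B| + ε, fun g => ?_⟩
  obtain ⟨a, h1, h2⟩ := hB (up g)
  obtain ⟨b, h3, h4⟩ := hB (up g * (X 0 - C 0))
  have h5 := two_closed hQ (up g) (X 0 - C 0) h1 (hyper_line hQ hs m 0) h3
  obtain ⟨e⟩ := quot_surj (sub0 m (0 : k)) (sub0_surj m _) (ker_sub0 m (0 : k)) (up g)
  have h6 := isoQ hQ e h5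
  rw [sub0_up] at h6
  refine ⟨_, h6, ?_⟩
  rw [pow_one] at h2 h4 ⊢
  have h7 : szl (m + 1) (up g) ≤ szl m g :=
    ell_mono (Nat.cast_nonneg _) (by exact_mod_cast deg_up g)
  have h8 : szl (m + 1) (up g * (X 0 - C 0)) ≤ szl m g + 1 := by
    have h9 : (up g * (X 0 - C 0) : MvPolynomial (Fin (m + 1)) k).totalDegree ≤
        g.totalDegree + 1 := by
      refine (totalDegree_mul _ _).trans (add_le_add (deg_up g) ?_)
      exact (totalDegree_sub_C_le _ _).trans (totalDegree_X _).le
    refine (ell_mono (Nat.cast_nonneg _) (y := (g.totalDegree : ℝ) + 1)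
      (by exact_mod_cast h9)).trans ?_
    refine (ell_add (Nat.cast_nonneg _) zero_le_one).trans ?_
    have := ell_le (x := 1) zero_le_one
    unfold szl
    linarith
  push_cast
  have h9 : |(a : ℝ) + 0 - b| ≤ |(a : ℝ)| + |(b : ℝ)| := by
    rw [add_zero]
    exact abs_sub _ _
  have h10 := mul_le_mul_of_nonneg_left h7 (by positivity : 0 ≤ ε / 2)
  have h11 := mul_le_mul_of_nonneg_left h8 (by positivity : 0 ≤ ε / 2)
  have h12 := le_abs_self B
  refine h9.trans ?_
  linarith

omit [Finite k] in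
lemma less_many {m r : ℕ} (h : Small szl Q (m + r) 1) : Small szl Q m 1 := by
  induction r with
  | zero => exact h
  | succ r ih => exact ih (less hQ hs h)

/-- **Finite fields: the formula in dimension at most `d`.** -/
theorem main_finite (hp : ∀ (A : Type) [CommRing A] [Algebra k A] [Algebra.FiniteType k A],
    ringKrullDim A ≤ 0 → Q (aff k A) 0) {d : ℕ} (h : Small szl Q (d + 1) 1) :
    ∀ (A : Type) [CommRing A] [Algebra k A] [Algebra.FiniteType k A],
      ringKrullDim A ≤ d → Q (aff k A) 0 := by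
  have main : ∀ n, n ≤ d → ∀ (A : Type) [CommRing A] [Algebra k A] [Algebra.FiniteType k A],
      ringKrullDim A ≤ n → Q (aff k A) 0 := by
    intro n
    induction n with
    | zero =>
      intro _ A _ _ _ hA
      exact hp A (by exact_mod_cast hA)
    | succ n ih =>
      intro hn A _ _ _ hA
      have h1 : Small szl Q (n + 2) 1 := by
        refine less_many hQ hs (r := d - (n + 1)) ?_
        rwa [show n + 2 + (d - (n + 1)) = d + 1 by omega]
      have h2 := hypF hQ hs (m := n) (fun B _ _ _ hB => ih (by omega) B (by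
        have h3 : ringKrullDim B + 1 ≤ (n : WithBot ℕ∞) + 1 := by exact_mod_cast hB
        exact ENat.WithBot.add_le_add_one_right_iff.mp h3)) h1
      exact Pool.Agent.Helper19.UA.closed_to_dim hQ.cls
        (Pool.Agent.Helper19.UA.closed_all hQ.cls (hs _) h2) A hA
  exact main d le_rfl

/-- **Finite fields: the formula in dimension at most `d`, all schemes.** -/
theorem main_finite' (hp : ∀ (A : Type) [CommRing A] [Algebra k A] [Algebra.FiniteType k A],
    ringKrullDim A ≤ 0 → Q (aff k A) 0) {d : ℕ} (h : Small szl Q (d + 1) 1) (X : Sch k)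
    (hX : FT sep X) (hd : topologicalKrullDim X.left ≤ d) : Q X 0 :=
  Pool.Agent.Helper19.UA.of_affine_dim hQ.cls
    (fun A _ _ _ hA => main_finite hQ hs hp h A hA) X hX hd

end

end Pool.Agent.Helper24.KG
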