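import Pool.Agent.Helper24.KG.WF
import Pool.Agent.Helper24.KG.Irr

/-!
# Growth of the defects of principal open subsets over finite fields
-/

set_option autoImplicit false
set_option linter.unusedSectionVars false

open CategoryTheory Limits AlgebraicGeometry MvPolynomial Pool.Agent.Y116.UV
  Pool.Agent.Q282.UM Pool.Agent.Q282.UK Pool.Agent.Helper62.EC Pool.Agent.Helper24.KD
  Pool.Agent.Helper24.KE Pool.Agent.Helper24.KF

namespace Pool.Agent.Helper24.KG

universe w w' v u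

section oneSided

variable {k : Type} [Field k] {sep : Prop} {Q : Sch k → ℤ → Prop} (hQ : Dfc sep Q)
  (hs : ∀ m : ℕ, Q (aff k (MvPolynomial (Fin m) k)) 0)

include hQ hs

/-- Two one-sided bounds give a two-sided bound. -/
theorem two_sidedF {m : ℕ} (h0 : Upper szl Q m 1) (h1 : Upper szl Q (m + 1) 1) :
    Small szl Q m 1 := by
  intro ε hε
  obtain ⟨B, hB⟩ := h0 ε hε
  obtain ⟨B', hB'⟩ := h1 ε hε
  refine ⟨|B| + |B'| + ε, fun F => ?_⟩
  obtain ⟨c, h2, h3⟩ := hB F
  refine ⟨-c, V_of_U hQ hs h2, ?_⟩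
  obtain ⟨c', h5, h6⟩ := hB' (X 0 * up F - 1)
  have h7 : c' = -c := by
    refine hQ.uniq h5 (U_of_V hQ hs ?_)
    obtain ⟨e1⟩ := graph_equiv F
    exact isoQ hQ e1.symm h2
  rw [h7] at h6
  rw [pow_one] at h3 h6 ⊢
  push_cast at h6 ⊢
  rw [abs_neg, abs_le]
  have h8 : szl (m + 1) (X 0 * up F - 1) ≤ szl m F + 1 := by
    refine (ell_mono (Nat.cast_nonneg _) (y := (F.totalDegree : ℝ) + 1)
      (by exact_mod_cast deg_graph F)).trans ?_
    refine (ell_add (Nat.cast_nonneg _) zero_le_one).trans ?_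
    have := ell_le (x := 1) zero_le_one
    unfold szl
    linarith
  have h9 := mul_le_mul_of_nonneg_left h8 hε.le
  have h10 : 0 ≤ szl m F := ell_nonneg (Nat.cast_nonneg _)
  have h11 : 0 ≤ ε * szl m F := mul_nonneg hε.le h10
  constructor <;> linarith [le_abs_self B, le_abs_self B', abs_nonneg B, abs_nonneg B']

end oneSided

section copies

variable {k : Type} [Field k]

/-- The product of the `x_0 - a`, `a ∈ S`. -/
noncomputable def prS (m : ℕ) (S : Finset k) : MvPolynomial (Fin (m + 1)) k :=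
  ∏ a ∈ S, (X 0 - C a)

lemma sub0_prS {m : ℕ} {S : Finset k} {a : k} (ha : a ∉ S) :
    ∃ c : k, c ≠ 0 ∧ sub0 m a (prS m S) = C c := by
  refine ⟨∏ b ∈ S, (a - b), ?_, ?_⟩
  · rw [Finset.prod_ne_zero_iff]
    intro b hb h
    rw [sub_eq_zero] at h
    exact ha (h ▸ hb)
  · unfold prS
    rw [map_prod, map_prod]
    refine Finset.prod_congr rfl fun b _ => ?_
    rw [map_sub, sub0_X, sub0_C, ← C_sub]

lemma deg_prS (m : ℕ) (S : Finset k) : (prS m S).totalDegree ≤ S.card := by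
  refine (totalDegree_finsetProd _ _).trans ?_
  have h1 : ∀ a ∈ S, (X 0 - C a : MvPolynomial (Fin (m + 1)) k).totalDegree ≤ 1 :=
    fun a _ => (totalDegree_sub_C_le _ _).trans (totalDegree_X _).le
  refine (Finset.sum_le_sum h1).trans (le_of_eq ?_)
  rw [Finset.sum_const, smul_eq_mul, mul_one]

variable {sep : Prop} {Q : Sch k → ℤ → Prop} (hQ : Dfc sep Q)
  (hs : ∀ m : ℕ, Q (aff k (MvPolynomial (Fin m) k)) 0)

include hQ hs

/-- Copies over finitely many points of the line. -/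
lemma copiesS {m : ℕ} {g : MvPolynomial (Fin m) k} {c u : ℤ} (h1 : Q (V g) c)
    (h2 : Q (V (up g)) u) (S : Finset k) : Q (V (up g * prS m S)) (u - S.card * c) := by
  classical
  induction S using Finset.induction_on with
  | empty =>
    unfold prS
    rw [Finset.prod_empty, mul_one, Finset.card_empty, Nat.cast_zero, zero_mul, sub_zero]
    exact h2
  | insert a S ha ih =>
    have h3 : up g * prS m (insert a S) = (up g * prS m S) * (X 0 - C a) := by
      unfold prS
      rw [Finset.prod_insert ha]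
      ring
    rw [h3]
    have h4 : Q (aff k (MvPolynomial (Fin (m + 1)) k ⧸
        (Ideal.span {X 0 - C a} ⊔ Ideal.span {up g * prS m S}))) c := by
      obtain ⟨e⟩ := quot_surj (sub0 m a) (sub0_surj m a) (ker_sub0 m a) (up g * prS m S)
      refine isoQ hQ e.symm ?_
      obtain ⟨b, hb, h5⟩ := sub0_prS (m := m) ha
      have h6 : Ideal.span {sub0 m a (up g * prS m S)} = Ideal.span {g} := by
        rw [map_mul, sub0_up, h5]
        exact Ideal.span_singleton_mul_right_unit (by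
          rw [isUnit_iff_exists_inv]
          exact ⟨C b⁻¹, by rw [← C_mul, mul_inv_cancel₀ hb, C_1]⟩) g
      rw [h6]
      exact h1
    have h5 := two_total hQ (up g * prS m S) (X 0 - C a) ih (hyper_line hQ hs m a) h4
    have h6 : u - ((insert a S).card : ℤ) * c = u - S.card * c + 0 - c := by
      rw [Finset.card_insert_of_notMem ha]
      push_cast
      ring
    rw [h6]
    exact h5

end copies

section grow

variable {k : Type} [Field k] [Finite k] {C : Type u} [Category.{v} C] [Preadditive C]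
  [HasBinaryBiproducts C] [HasZeroObject C] [HasFiniteBiproducts C] {T : HK C → ℤ → Prop}
  (hT : TD T) {D : Weights k C} (hD : IsWeightsF D)

/-- The defects of all open sets `F ≠ 0` are defined. -/
def Defd (Q : Sch k → ℤ → Prop) : Prop :=
  ∀ (r : ℕ) (F : MvPolynomial (Fin r) k), ∃ c : ℤ, Q (U F) c

/-- The defects of the open sets `F ≠ 0` with `F ∈ k[x_1, …, x_r]` and `deg F ≤ q r + b` are at most
`o(q ^ r)`. -/
def Grow (Q : Sch k → ℤ → Prop) (R : ℤ → ℤ) : Prop :=
  ∀ (b : ℕ) (ε : ℝ), 0 < ε → ∃ r₀ : ℕ, ∀ r, r₀ ≤ r → ∀ F : MvPolynomial (Fin r) k,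
    F.totalDegree ≤ Nat.card k * r + b → ∀ c : ℤ, Q (U F) c →
      (R c : ℝ) ≤ ε * (Nat.card k : ℝ) ^ r

include hT hD

/-- Many copies. -/
lemma powers {j : ℤ} (hs : ∀ m : ℕ, QT T D j (aff k (MvPolynomial (Fin m) k)) 0)
    (hj : ∀ (m : ℕ) (g : MvPolynomial (Fin m) k), QT T D (j - 1) (V g) 0) {m : ℕ}
    (g : MvPolynomial (Fin m) k) {c : ℤ} (hc : QT T D j (V g) c) (s : ℕ) :
    ∃ G : MvPolynomial (Fin (m + s)) k, G.totalDegree ≤ g.totalDegree + Nat.card k * s ∧
      QT T D j (V G) ((-(Nat.card k : ℤ)) ^ s * c) := by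
  have := Fintype.ofFinite k
  induction s with
  | zero => exact ⟨g, by omega, by simpa using hc⟩
  | succ s ih =>
    obtain ⟨G, h1, h2⟩ := ih
    refine ⟨up G * prS (m + s) Finset.univ, ?_, ?_⟩
    · refine (totalDegree_mul _ _).trans ?_
      have h3 := deg_prS (m + s) (Finset.univ : Finset k)
      rw [Finset.card_univ, ← Nat.card_eq_fintype_card] at h3
      have h4 := deg_up G
      rw [mul_add, mul_one]
      omega
    · have h3 : QT T D j (V (up G)) 0 := by
        have h4 := (cylF hT hD G (j - 1) 0).mpr (hj _ G)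
        rwa [sub_add_cancel] at h4
      have h4 := copiesS (dfcF hT hD j) hs h2 h3 Finset.univ
      rw [Finset.card_univ, ← Nat.card_eq_fintype_card] at h4
      have h5 : (-(Nat.card k : ℤ)) ^ (s + 1) * c =
          0 - (Nat.card k : ℤ) * ((-(Nat.card k : ℤ)) ^ s * c) := by
        rw [pow_succ]
        ring
      rw [h5]
      exact h4

/-- One step. -/
theorem grow_step {j : ℤ} (hs : ∀ m : ℕ, QT T D j (aff k (MvPolynomial (Fin m) k)) 0)
    (hj : ∀ (m : ℕ) (g : MvPolynomial (Fin m) k), QT T D (j - 1) (V g) 0)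
    (hd : Defd (QT T D j)) {R : ℤ → ℤ} (hR : R = id ∨ R = Neg.neg) (h : Grow (QT T D j) R) {m : ℕ}
    (g : MvPolynomial (Fin m) k) : QT T D j (V g) 0 := by
  have hQ := dfcF hT hD j
  obtain ⟨c, hc⟩ := hd m g
  have h1 := V_of_U hQ hs hc
  rcases eq_or_ne c 0 with h0 | h0
  · rwa [h0, neg_zero] at h1
  exfalso
  set q := Nat.card k with hq
  have hq1 : 1 ≤ q := Nat.card_pos
  have hq0 : (0 : ℝ) < (q : ℝ) := by exact_mod_cast hq1
  obtain ⟨r₀, hr⟩ := h g.totalDegree (1 / (2 * (q : ℝ) ^ m)) (by positivity)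
  have key : ∀ s, r₀ ≤ s → (R ((-(q : ℤ)) ^ s * c) : ℝ) ≤ (q : ℝ) ^ s / 2 := by
    intro s hrs
    obtain ⟨G, h2, h3⟩ := powers hT hD hs hj g h1 s
    have h4 := U_of_V hQ hs h3
    have h5 : -((-(q : ℤ)) ^ s * -c) = (-(q : ℤ)) ^ s * c := by ring
    rw [h5] at h4
    have h6 := hr (m + s) (by omega) G (by
      rw [mul_add]
      omega) _ h4
    refine h6.trans (le_of_eq ?_)
    rw [← hq, pow_add]
    field_simp
  have key2 : ∃ s, r₀ ≤ s ∧ R ((-(q : ℤ)) ^ s * c) = (q : ℤ) ^ s * |c| := by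
    have he : (-(q : ℤ)) ^ (2 * r₀) = (q : ℤ) ^ (2 * r₀) := Even.neg_pow ⟨r₀, by ring⟩ _
    have ho : (-(q : ℤ)) ^ (2 * r₀ + 1) = -(q : ℤ) ^ (2 * r₀ + 1) := Odd.neg_pow ⟨r₀, by ring⟩ _
    rcases hR with rfl | rfl <;> rcases lt_or_gt_of_ne h0 with hn | hn
    · refine ⟨2 * r₀ + 1, by omega, ?_⟩
      rw [id, ho, abs_of_neg hn]
      ring
    · refine ⟨2 * r₀, by omega, ?_⟩
      rw [id, he, abs_of_pos hn]
    · refine ⟨2 * r₀, by omega, ?_⟩
      change -((-(q : ℤ)) ^ (2 * r₀) * c) = _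
      rw [he, abs_of_neg hn]
      ring
    · refine ⟨2 * r₀ + 1, by omega, ?_⟩
      change -((-(q : ℤ)) ^ (2 * r₀ + 1) * c) = _
      rw [ho, abs_of_pos hn]
      ring
  obtain ⟨s, hrs, h2⟩ := key2
  have h3 := key s hrs
  rw [h2] at h3
  push_cast at h3
  have h4 : (1 : ℝ) ≤ |(c : ℝ)| := by
    have : (1 : ℤ) ≤ |c| := Int.one_le_abs h0
    exact_mod_cast this
  have h5 : (0 : ℝ) < (q : ℝ) ^ s := by positivity
  nlinarith

/-- From hypersurfaces to all schemes. -/
lemma all_of_V {j : ℤ} (hs : ∀ m : ℕ, QT T D j (aff k (MvPolynomial (Fin m) k)) 0)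
    (h : ∀ (m : ℕ) (g : MvPolynomial (Fin m) k), QT T D j (V g) 0) (X : Sch k)
    (hX : FT True X) : QT T D j X 0 := by
  have hQ := dfcF hT hD j
  refine of_affine' (P := fun X => QT T D j X 0) hQ.cls.iso hQ.cls.total (fun B _ _ _ => ?_) X hX
  obtain ⟨N, hN⟩ := Pool.Agent.Helper24.KZ.exists_dim_aff (k := k) B
  exact Pool.Agent.Helper19.UA.of_hyp hQ.cls (hs _) (h (N + 1)) _ (ft_aff True) hN

/-- **Growth slower than `q ^ r`, for all twists up to `J`.** -/
theorem grow_all (hs : ∀ (j : ℤ) (m : ℕ), QT T D j (aff k (MvPolynomial (Fin m) k)) 0)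
    (hneg : ∀ j : ℤ, j < 0 → ∀ (m : ℕ) (g : MvPolynomial (Fin m) k), QT T D j (V g) 0) {J : ℤ}
    {R : ℤ → ℤ} (hR : R = id ∨ R = Neg.neg)
    (h : ∀ j ≤ J, Defd (QT T D j) ∧ Grow (QT T D j) R) : ∀ j ≤ J, ∀ X : Sch k, FT True X →
      QT T D j X 0 := by
  have main : ∀ (n : ℕ) (j : ℤ), j ≤ J → j < n → ∀ (m : ℕ) (g : MvPolynomial (Fin m) k),
      QT T D j (V g) 0 := by
    intro n
    induction n with
    | zero => exact fun j _ hj0 => hneg j (by exact_mod_cast hj0)
    | succ n ih =>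
      intro j hj hjn m g
      exact grow_step hT hD (hs j) (ih (j - 1) (by omega) (by push_cast at hjn; omega))
        (h j hj).1 hR (h j hj).2 g
  intro j hj X hX
  refine all_of_V hT hD (hs j) (main (j.toNat + 1) j hj ?_) X hX
  have := Int.self_le_toNat j
  push_cast
  omega

end grow

end Pool.Agent.Helper24.KG
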