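import Pool.Agent.Helper24.KG.Grow

/-!
# Functors on Chow motives over finite fields and hypersurface complements
-/

set_option autoImplicit false
set_option linter.unusedSectionVars false

open CategoryTheory Limits AlgebraicGeometry MvPolynomial Pool.Agent.Y116.UV
  Pool.Agent.Q282.UM Pool.Agent.Q282.UK Pool.Agent.Helper62.EC Pool.Agent.Helper24.KD
  Pool.Agent.Helper24.KE Pool.Agent.Helper24.KF

namespace Pool.Agent.Helper24.KG

universe w v u

/-- The principal open subset `D(F) : F ≠ 0` of the affine space over `k`. -/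
noncomputable def princ {k : Type} [Field k] {r : ℕ} (F : MvPolynomial (Fin r) k) : Sch k :=
  aff k (Localization.Away F)

/-- The size `deg F / log (deg F + 3)`. -/
noncomputable def size {k : Type} [Field k] {r : ℕ} (F : MvPolynomial (Fin r) k) : ℝ :=
  F.totalDegree / Real.log (F.totalDegree + 3)

section

variable {C : Type u} [Category.{v} C] [Preadditive C] [HasZeroObject C] [HasBinaryBiproducts C]
  [HasFiniteBiproducts C] {𝕜 : Type w} [Field 𝕜] (F : C ⥤ ModuleCat.{w} 𝕜) [F.Additive]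
  {k : Type} [Field k] (D : Weights k C)

/-- The functor `F` vanishes on the motive `h(X)(j)`. -/
def Zero (j : ℤ) (X : Sch k) : Prop := Subsingleton (F.obj ((D.tw j).obj (D.h X)))

/-- The functor `F` vanishes on the motives `h(X)(j)`, for all smooth projective `X` of dimension at
most `d`. -/
def ZeroDim (j : ℤ) (d : ℕ) : Prop :=
  ∀ X : Sch k, IsSmoothProjective X → topologicalKrullDim X.left ≤ d → Zero F D j X

/-- The functor `F` vanishes on the motives `h(X)(j)`, for all smooth projective `X`. -/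
def ZeroAll (j : ℤ) : Prop := ∀ X : Sch k, IsSmoothProjective X → Zero F D j X

/-- The Euler characteristic of `F(W(X)(j))` is defined: the cohomology of this complex has finite
total dimension. -/
def HasChi (j : ℤ) (X : Sch k) : Prop := FinCoh F (onHK (D.tw j) (D.W X))

/-- The Euler characteristic of `F(W(X)(j))`. -/
noncomputable def euler (j : ℤ) (X : Sch k) : ℤ := chi F (onHK (D.tw j) (D.W X))

/-- The Euler characteristics `χ` of the `D(G)`, `G ∈ k[x_1, …, x_r]`, are defined and satisfy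
`R χ ≤ o(deg G / log (deg G + 3))`, where `R χ` is `|χ|`, `χ` or `-χ`. -/
def Bound (R : ℤ → ℤ) (j : ℤ) (r : ℕ) : Prop :=
  ∀ ε : ℝ, 0 < ε → ∃ B : ℝ, ∀ G : MvPolynomial (Fin r) k, HasChi F D j (princ G) ∧
    (R (euler F D j (princ G)) : ℝ) ≤ ε * size G + B

/-- The Euler characteristics `χ` of the `D(G)`, `G ∈ k[x_1, …, x_r]`, are defined for all `r`, and for
all `b` they satisfy `R χ ≤ o(q^r)` for the polynomials `G` with `deg G ≤ q r + b`, where `q` is the
number of elements of `k`. -/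
def Growth (R : ℤ → ℤ) (j : ℤ) : Prop :=
  (∀ (r : ℕ) (G : MvPolynomial (Fin r) k), HasChi F D j (princ G)) ∧
  ∀ (b : ℕ) (ε : ℝ), 0 < ε → ∃ r₀ : ℕ, ∀ r, r₀ ≤ r → ∀ G : MvPolynomial (Fin r) k,
    G.totalDegree ≤ Nat.card k * r + b →
      (R (euler F D j (princ G)) : ℝ) ≤ ε * (Nat.card k : ℝ) ^ r

/-- The known properties: `weight`, the weight complexes; `points`, the vanishing in dimension zero;
`negative`, the vanishing of `F(h(X)(j))` for `j < 0`. -/
structure Known : Prop where
  weight : IsWeightsF D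
  points : ∀ j : ℤ, ZeroDim F D j 0
  negative : ∀ j : ℤ, j < 0 → ZeroAll F D j

variable {F D}

lemma q_iff (j : ℤ) (X : Sch k) (c : ℤ) :
    QT (TOne F) D j X c ↔ HasChi F D j X ∧ euler F D j X = c := tOne_iff

lemma zero_iff {j : ℤ} {X : Sch k} (h : Known F D) (hX : IsSmoothProjective X)
    (h0 : QT (TOne F) D j X 0) : Zero F D j X := by
  have h1 := projF (tOne F) h.weight hX h0
  obtain ⟨h2, h3⟩ := one_inZero.mp h1
  exact Module.finrank_zero_iff.mp (by exact_mod_cast h3)

lemma exact_points (h : Known F D) (j : ℤ) (A : Type) [CommRing A] [Algebra k A]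
    [Algebra.FiniteType k A] (hA : ringKrullDim A ≤ 0) : QT (TOne F) D j (aff k A) 0 := by
  refine one_zeroF h.weight (N := 0) (fun Y hY hd => h.points j Y hY hd) _ (ft_aff True) ?_
  rw [Pool.Agent.Z125.UN.topDim_aff]
  exact_mod_cast hA

lemma exact_space (h : Known F D) (j : ℤ) (m : ℕ) :
    QT (TOne F) D j (aff k (MvPolynomial (Fin m) k)) 0 := by
  refine spaceF (tOne F) h.weight (fun j => exact_points h j k ?_) j m
  rw [ringKrullDim_eq_zero_of_field]

lemma exact_open' (h : Known F D) {j : ℤ} {d : ℕ} (h1 : ZeroDim F D j d)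
    (G : MvPolynomial (Fin (d + 1)) k) : QT (TOne F) D j (U G) 0 :=
  exact_open (dfcF (tOne F) h.weight j) (exact_space h j)
    (fun X hX hd => one_zeroF h.weight (fun Y hY hYd => h1 Y hY hYd) X hX hd) G

/-- From the vanishing to the bounds. -/
theorem to_bound (h : Known F D) {j : ℤ} {d : ℕ} (h1 : ZeroDim F D j d) {R : ℤ → ℤ}
    (hR : R 0 = 0) : Bound F D R j (d + 1) := by
  intro ε hε
  refine ⟨0, fun G => ?_⟩
  obtain ⟨h2, h3⟩ := (q_iff j _ 0).mp (exact_open' h h1 G)
  refine ⟨h2, ?_⟩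
  have h4 : euler F D j (princ G) = 0 := h3
  rw [h4, hR, Int.cast_zero, add_zero]
  have h5 : 0 ≤ size G := ell_nonneg (Nat.cast_nonneg _)
  positivity

lemma of_bound {j : ℤ} {r : ℕ} (h : Bound F D abs j r) : Both szl (QT (TOne F) D j) r 1 := by
  intro ε hε
  obtain ⟨B, hB⟩ := h ε hε
  refine ⟨B, fun G => ⟨_, (q_iff j _ _).mpr ⟨(hB G).1, rfl⟩, ?_⟩⟩
  have h1 := (hB G).2
  rw [Int.cast_abs] at h1
  rw [pow_one]
  exact h1

lemma of_bound_id {j : ℤ} {r : ℕ} (h : Bound F D id j r) : Upper szl (QT (TOne F) D j) r 1 := by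
  intro ε hε
  obtain ⟨B, hB⟩ := h ε hε
  refine ⟨B, fun G => ⟨_, (q_iff j _ _).mpr ⟨(hB G).1, rfl⟩, ?_⟩⟩
  rw [pow_one]
  exact (hB G).2

lemma of_bound_neg {j : ℤ} {r : ℕ} (h : Bound F D Neg.neg j r) :
    Upper szl (fun X c => QT (TOne F) D j X (-c)) r 1 := by
  intro ε hε
  obtain ⟨B, hB⟩ := h ε hε
  refine ⟨B, fun G => ⟨-euler F D j (princ G), ?_, ?_⟩⟩
  · change QT (TOne F) D j (U G) (- -euler F D j (princ G))
    rw [neg_neg]
    exact (q_iff j _ _).mpr ⟨(hB G).1, rfl⟩
  · rw [pow_one]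
    exact (hB G).2

variable [Finite k]

/-- **Two-sided bounds.** -/
theorem from_abs (h : Known F D) {j : ℤ} {d : ℕ} (h1 : Bound F D abs j (d + 1)) :
    ZeroDim F D j d := by
  intro X hX hd
  have hQ := dfcF (tOne F) h.weight j
  exact zero_iff h hX (main_finite' hQ (exact_space h j) (fun A _ _ _ hA => exact_points h j A hA)
    (both_small hQ (exact_space h j) (of_bound h1)) X (ft_projective hX) hd)

/-- **One-sided bounds.** -/
theorem from_one (h : Known F D) {j : ℤ} {d : ℕ} {R : ℤ → ℤ} (hR : R = id ∨ R = Neg.neg)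
    (h1 : Bound F D R j (d + 1)) (h2 : Bound F D R j (d + 2)) : ZeroDim F D j d := by
  intro X hX hd
  have hQ := dfcF (tOne F) h.weight j
  refine zero_iff h hX ?_
  rcases hR with rfl | rfl
  · exact main_finite' hQ (exact_space h j) (fun A _ _ _ hA => exact_points h j A hA)
      (two_sidedF hQ (exact_space h j) (of_bound_id h1) (of_bound_id h2)) X (ft_projective hX) hd
  · have hs : ∀ m : ℕ, QT (TOne F) D j (aff k (MvPolynomial (Fin m) k)) (-0) := fun m => by
      rw [neg_zero]
      exact exact_space h j m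
    have h3 := main_finite' hQ.neg hs (fun A _ _ _ hA => by
      rw [neg_zero]
      exact exact_points h j A hA)
      (two_sidedF hQ.neg hs (of_bound_neg h1) (of_bound_neg h2)) X (ft_projective hX) hd
    rwa [neg_zero] at h3

/-- **Growth.** -/
theorem from_growth (h : Known F D) {J : ℤ} {R : ℤ → ℤ} (hR : R = id ∨ R = Neg.neg)
    (h1 : ∀ j ≤ J, Growth F D R j) : ∀ j ≤ J, ZeroAll F D j := by
  intro j hj X hX
  refine zero_iff h hX (grow_all (tOne F) h.weight (exact_space h) (fun j hj m g => ?_) hR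
    (fun j hj => ⟨?_, ?_⟩) j hj X (ft_projective hX))
  · obtain ⟨N, hN⟩ := Pool.Agent.Helper24.KZ.exists_dim_aff (k := k)
      (MvPolynomial (Fin m) k ⧸ Ideal.span {g})
    exact one_zeroF h.weight (N := N) (fun Y hY _ => h.negative j hj Y hY) _ (ft_aff True) hN
  · exact fun r G => ⟨_, (q_iff j _ _).mpr ⟨(h1 j hj).1 r G, rfl⟩⟩
  · intro b ε hε
    obtain ⟨r₀, hr⟩ := (h1 j hj).2 b ε hε
    refine ⟨r₀, fun r hrr G hG c hc => ?_⟩
    have h2 : euler F D j (princ G) = c := ((q_iff j _ c).mp hc).2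
    rw [← h2]
    exact hr r hrr G hG

omit [Finite k] in
theorem to_growth (h : Known F D) {j : ℤ} (h1 : ZeroAll F D j) {R : ℤ → ℤ} (hR : R 0 = 0) :
    Growth F D R j := by
  have key : ∀ (r : ℕ) (G : MvPolynomial (Fin r) k), QT (TOne F) D j (U G) 0 := by
    intro r G
    obtain ⟨N, hN⟩ := Pool.Agent.Helper24.KZ.exists_dim_aff (k := k) (Localization.Away G)
    exact one_zeroF h.weight (N := N) (fun Y hY _ => h1 Y hY) _ (ft_aff True) hN
  refine ⟨fun r G => ((q_iff j _ 0).mp (key r G)).1, fun b ε hε => ⟨0, fun r _ G _ => ?_⟩⟩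
  have h4 : euler F D j (princ G) = 0 := ((q_iff j _ 0).mp (key r G)).2
  rw [h4, hR, Int.cast_zero]
  positivity

end

end Pool.Agent.Helper24.KG
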