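import Pool.Agent.Helper24.KG.Main

/-!
# Bounds without information on negative twists; products of functors; duals
-/

set_option autoImplicit false
set_option linter.unusedSectionVars false

open CategoryTheory Limits AlgebraicGeometry MvPolynomial Pool.Agent.Y116.UV
  Pool.Agent.Q282.UM Pool.Agent.Q282.UK Pool.Agent.Helper62.EC Pool.Agent.Helper24.KD
  Pool.Agent.Helper24.KE Pool.Agent.Helper24.KF

namespace Pool.Agent.Helper24.KG

universe w v u

section

variable {C : Type u} [Category.{v} C] [Preadditive C] [HasZeroObject C] [HasBinaryBiproducts C]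
  [HasFiniteBiproducts C] {𝕜 : Type w} [Field 𝕜] (F : C ⥤ ModuleCat.{w} 𝕜) [F.Additive]
  {k : Type} [Field k] (D : Weights k C)

/-- The known properties: `weight`, the weight complexes; `points`, the vanishing in dimension zero. -/
structure KnownP : Prop where
  weight : IsWeightsF D
  points : ∀ j : ℤ, ZeroDim F D j 0

variable {F D}

lemma zero_iffP {j : ℤ} {X : Sch k} (h : KnownP F D) (hX : IsSmoothProjective X)
    (h0 : QT (TOne F) D j X 0) : Zero F D j X := by
  have h1 := projF (tOne F) h.weight hX h0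
  obtain ⟨h2, h3⟩ := one_inZero.mp h1
  exact Module.finrank_zero_iff.mp (by exact_mod_cast h3)

lemma exact_pointsP (h : KnownP F D) (j : ℤ) (A : Type) [CommRing A] [Algebra k A]
    [Algebra.FiniteType k A] (hA : ringKrullDim A ≤ 0) : QT (TOne F) D j (aff k A) 0 := by
  refine one_zeroF h.weight (N := 0) (fun Y hY hd => h.points j Y hY hd) _ (ft_aff True) ?_
  rw [Pool.Agent.Z125.UN.topDim_aff]
  exact_mod_cast hA

lemma exact_spaceP (h : KnownP F D) (j : ℤ) (m : ℕ) :
    QT (TOne F) D j (aff k (MvPolynomial (Fin m) k)) 0 := by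
  refine spaceF (tOne F) h.weight (fun j => exact_pointsP h j k ?_) j m
  rw [ringKrullDim_eq_zero_of_field]

lemma exact_openP (h : KnownP F D) {j : ℤ} {d : ℕ} (h1 : ZeroDim F D j d)
    (G : MvPolynomial (Fin (d + 1)) k) : QT (TOne F) D j (U G) 0 :=
  exact_open (dfcF (tOne F) h.weight j) (exact_spaceP h j)
    (fun X hX hd => one_zeroF h.weight (fun Y hY hYd => h1 Y hY hYd) X hX hd) G

/-- From the vanishing to the bounds. -/
theorem to_boundP (h : KnownP F D) {j : ℤ} {d : ℕ} (h1 : ZeroDim F D j d) {R : ℤ → ℤ}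
    (hR : R 0 = 0) : Bound F D R j (d + 1) := by
  intro ε hε
  refine ⟨0, fun G => ?_⟩
  obtain ⟨h2, h3⟩ := (q_iff j _ 0).mp (exact_openP h h1 G)
  refine ⟨h2, ?_⟩
  have h4 : euler F D j (princ G) = 0 := h3
  rw [h4, hR, Int.cast_zero, add_zero]
  have h5 : 0 ≤ size G := ell_nonneg (Nat.cast_nonneg _)
  positivity


variable [Finite k]

/-- **Two-sided bounds.** -/
theorem from_absP (h : KnownP F D) {j : ℤ} {d : ℕ} (h1 : Bound F D abs j (d + 1)) :
    ZeroDim F D j d := by
  intro X hX hd
  have hQ := dfcF (tOne F) h.weight j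
  exact zero_iffP h hX (main_finite' hQ (exact_spaceP h j) (fun A _ _ _ hA => exact_pointsP h j A hA)
    (both_small hQ (exact_spaceP h j) (of_bound h1)) X (ft_projective hX) hd)

/-- **One-sided bounds.** -/
theorem from_oneP (h : KnownP F D) {j : ℤ} {d : ℕ} {R : ℤ → ℤ} (hR : R = id ∨ R = Neg.neg)
    (h1 : Bound F D R j (d + 1)) (h2 : Bound F D R j (d + 2)) : ZeroDim F D j d := by
  intro X hX hd
  have hQ := dfcF (tOne F) h.weight j
  refine zero_iffP h hX ?_
  rcases hR with rfl | rfl
  · exact main_finite' hQ (exact_spaceP h j) (fun A _ _ _ hA => exact_pointsP h j A hA)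
      (two_sidedF hQ (exact_spaceP h j) (of_bound_id h1) (of_bound_id h2)) X (ft_projective hX) hd
  · have hs : ∀ m : ℕ, QT (TOne F) D j (aff k (MvPolynomial (Fin m) k)) (-0) := fun m => by
      rw [neg_zero]
      exact exact_spaceP h j m
    have h3 := main_finite' hQ.neg hs (fun A _ _ _ hA => by
      rw [neg_zero]
      exact exact_pointsP h j A hA)
      (two_sidedF hQ.neg hs (of_bound_neg h1) (of_bound_neg h2)) X (ft_projective hX) hd
    rwa [neg_zero] at h3

end

section prod

variable {C : Type u} [Category.{v} C] [Preadditive C] {𝕜 : Type w} [Field 𝕜]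

/-- The product of two functors. -/
noncomputable def prodF (A B : C ⥤ ModuleCat.{w} 𝕜) : C ⥤ ModuleCat.{w} 𝕜 where
  obj X := ModuleCat.of 𝕜 (A.obj X × B.obj X)
  map f := ModuleCat.ofHom (LinearMap.prodMap (A.map f).hom (B.map f).hom)
  map_id X := by
    rw [A.map_id, B.map_id]
    rfl
  map_comp f g := by
    rw [A.map_comp, B.map_comp]
    rfl

instance (A B : C ⥤ ModuleCat.{w} 𝕜) [A.Additive] [B.Additive] : (prodF A B).Additive where
  map_add {X Y f g} := by
    change ModuleCat.ofHom (LinearMap.prodMap (A.map (f + g)).hom (B.map (f + g)).hom) = _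
    rw [A.map_add, B.map_add]
    rfl

lemma prodF_iff (A B : C ⥤ ModuleCat.{w} 𝕜) (X : C) : Subsingleton ((prodF A B).obj X) ↔
    Subsingleton (A.obj X) ∧ Subsingleton (B.obj X) := by
  constructor
  · intro h
    have h1 : Subsingleton (A.obj X × B.obj X) := h
    exact ⟨⟨fun a b => congrArg Prod.fst (h1.elim (a, 0) (b, 0))⟩,
      ⟨fun a b => congrArg Prod.snd (h1.elim (0, a) (0, b))⟩⟩
  · rintro ⟨h1, h2⟩
    change Subsingleton (A.obj X × B.obj X)
    infer_instance

/-- The dual of a contravariant functor. -/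
noncomputable def dualF (G : Cᵒᵖ ⥤ ModuleCat.{w} 𝕜) : C ⥤ ModuleCat.{w} 𝕜 where
  obj X := ModuleCat.of 𝕜 (Module.Dual 𝕜 (G.obj (Opposite.op X)))
  map f := ModuleCat.ofHom (G.map f.op).hom.dualMap
  map_id X := by
    rw [op_id, G.map_id]
    rfl
  map_comp f g := by
    rw [op_comp, G.map_comp]
    rfl

/-- The bidual of a covariant functor. -/
noncomputable def bidualF (F : C ⥤ ModuleCat.{w} 𝕜) : C ⥤ ModuleCat.{w} 𝕜 where
  obj X := ModuleCat.of 𝕜 (Module.Dual 𝕜 (Module.Dual 𝕜 (F.obj X)))
  map f := ModuleCat.ofHom (F.map f).hom.dualMap.dualMap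
  map_id X := by
    rw [F.map_id]
    rfl
  map_comp f g := by
    rw [F.map_comp]
    rfl

instance (G : Cᵒᵖ ⥤ ModuleCat.{w} 𝕜) [G.Additive] : (dualF G).Additive where
  map_add {X Y f g} := by
    change ModuleCat.ofHom (G.map (f + g).op).hom.dualMap = _
    rw [op_add, G.map_add]
    refine ModuleCat.hom_ext (LinearMap.ext fun x => LinearMap.ext fun y => ?_)
    exact map_add x _ _

instance (F : C ⥤ ModuleCat.{w} 𝕜) [F.Additive] : (bidualF F).Additive where
  map_add {X Y f g} := by
    change ModuleCat.ofHom (F.map (f + g)).hom.dualMap.dualMap = _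
    rw [F.map_add]
    refine ModuleCat.hom_ext (LinearMap.ext fun x => LinearMap.ext fun y => ?_)
    change x ((F.map f + F.map g).hom.dualMap y) =
      x ((F.map f).hom.dualMap y) + x ((F.map g).hom.dualMap y)
    rw [← map_add]
    congr 1
    refine LinearMap.ext fun z => ?_
    exact map_add y _ _

/-- The transpose of the second map of a pairing. -/
noncomputable def transpose {F : C ⥤ ModuleCat.{w} 𝕜} {G : Cᵒᵖ ⥤ ModuleCat.{w} 𝕜}
    (p : F ⟶ dualF G) : bidualF F ⟶ dualF G where
  app X := ModuleCat.ofHom (LinearMap.dualMap (LinearMap.flip (p.app X).hom))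
  naturality X Y f := by
    refine ModuleCat.hom_ext (LinearMap.ext fun x => LinearMap.ext fun y => ?_)
    have h0 : (F.map f).hom.dualMap (LinearMap.flip (p.app Y).hom y) =
        LinearMap.flip (p.app X).hom ((G.map f.op).hom y) := by
      refine LinearMap.ext fun z => ?_
      have h := congrArg (fun g => g.hom z) (p.naturality f)
      exact congrArg (fun t : Module.Dual 𝕜 (G.obj (Opposite.op Y)) => t y) h
    exact (fun x : Module.Dual 𝕜 (Module.Dual 𝕜 (F.obj X)) => congrArg x h0) x

/-- The pairing is perfect: both maps to the dual spaces are bijective. -/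
def Perfect {F : C ⥤ ModuleCat.{w} 𝕜} {G : Cᵒᵖ ⥤ ModuleCat.{w} 𝕜} (p : F ⟶ dualF G) (X : C) :
    Prop :=
  Function.Bijective (p.app X).hom ∧ Function.Bijective (LinearMap.flip (p.app X).hom)

/-- The defect of a pairing: the kernels and the cokernels of the maps `F(X) → G(X)*` and
`F(X)** → G(X)*`. -/
noncomputable def defect {F : C ⥤ ModuleCat.{w} 𝕜} {G : Cᵒᵖ ⥤ ModuleCat.{w} 𝕜} (p : F ⟶ dualF G) :
    C ⥤ ModuleCat.{w} 𝕜 :=
  prodF (prodF (kerF p) (cokerF p)) (prodF (kerF (transpose p)) (cokerF (transpose p)))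

noncomputable instance {F : C ⥤ ModuleCat.{w} 𝕜} [F.Additive] {G : Cᵒᵖ ⥤ ModuleCat.{w} 𝕜}
    [G.Additive] (p : F ⟶ dualF G) : (defect p).Additive :=
  inferInstanceAs (prodF (prodF (kerF p) (cokerF p))
    (prodF (kerF (transpose p)) (cokerF (transpose p)))).Additive

theorem perfect_iff {F : C ⥤ ModuleCat.{w} 𝕜} {G : Cᵒᵖ ⥤ ModuleCat.{w} 𝕜} (p : F ⟶ dualF G)
    (X : C) : Perfect p X ↔ Subsingleton ((defect p).obj X) := by
  have h1 : ∀ {A B : C ⥤ ModuleCat.{w} 𝕜} (a : A ⟶ B), IsIso (a.app X) ↔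
      Function.Bijective (a.app X).hom := fun a => ConcreteCategory.isIso_iff_bijective _
  unfold defect Perfect
  rw [prodF_iff, prodF_iff, prodF_iff, ← iso_iff, ← iso_iff, h1, h1]
  refine and_congr Iff.rfl ?_
  exact (LinearMap.dualMap_bijective_iff (f := LinearMap.flip (p.app X).hom)).symm

end prod

end Pool.Agent.Helper24.KG
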