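import Pool.Agent.Helper24.KE.Sz

/-!
# Shears of hypersurfaces
-/

set_option autoImplicit false
set_option linter.unusedSectionVars false

open CategoryTheory AlgebraicGeometry MvPolynomial Pool.Agent.Y116.UV Pool.Agent.Helper62.EC
  Pool.Agent.Helper24.KE

namespace Pool.Agent.Helper24.KG

section poly

variable {S : Type} [CommRing S] [IsDomain S]

/-- A polynomial of positive degree is fixed by finitely many translations. -/
lemma fix_finite {G : Polynomial S} (hG : 0 < G.natDegree) :
    {h : S | Polynomial.taylor h G = G}.Finite := by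
  classical
  have h0 : G - Polynomial.C (G.eval 0) ≠ 0 := by
    intro h
    rw [sub_eq_zero] at h
    rw [h, Polynomial.natDegree_C] at hG
    exact lt_irrefl _ hG
  refine ((G - Polynomial.C (G.eval 0)).roots.toFinset.finite_toSet).subset ?_
  intro h hh
  have h1 := congrArg (Polynomial.eval 0) (show Polynomial.taylor h G = G from hh)
  rw [Polynomial.taylor_eval, zero_add] at h1
  rw [Finset.mem_coe, Multiset.mem_toFinset, Polynomial.mem_roots h0, Polynomial.IsRoot.def,
    Polynomial.eval_sub, Polynomial.eval_C, h1, sub_self]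

/-- Translations with different images. -/
lemma not_assoc' {G : Polynomial S} (hG : 0 < G.natDegree) {a b : S}
    (h : Polynomial.taylor (a - b) G ≠ G) :
    ¬ Associated (Polynomial.taylor a G) (Polynomial.taylor b G) := by
  rintro ⟨u, hu⟩
  obtain ⟨v, hv, hv2⟩ := Polynomial.isUnit_iff.mp u.isUnit
  have hG0 : G ≠ 0 := by
    rintro rfl
    simp at hG
  have h1 := congrArg Polynomial.leadingCoeff hu
  rw [← hv2, Polynomial.leadingCoeff_mul, Polynomial.leadingCoeff_C, Polynomial.leadingCoeff_taylor,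
    Polynomial.leadingCoeff_taylor] at h1
  have h2 : v = 1 := mul_left_cancel₀ (Polynomial.leadingCoeff_ne_zero.mpr hG0)
    (h1.trans (mul_one _).symm)
  rw [← hv2, h2, Polynomial.C_1, mul_one] at hu
  apply h
  have h3 := congrArg (Polynomial.taylor (-b)) hu
  rw [Polynomial.taylor_taylor, Polynomial.taylor_taylor, neg_add_cancel, Polynomial.taylor_zero] at h3
  rw [show a - b = -b + a by ring]
  exact h3

end poly

section shear

variable {k : Type} [Field k]

/-- The shear `x_0 ↦ x_0 + h(x_1, …, x_m)`. -/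
noncomputable def sh {m : ℕ} (h : MvPolynomial (Fin m) k) :
    MvPolynomial (Fin (m + 1)) k ≃ₐ[k] MvPolynomial (Fin (m + 1)) k :=
  ((finSuccEquiv k m).trans ((Polynomial.taylorEquiv h).restrictScalars k)).trans
    (finSuccEquiv k m).symm

lemma finSucc_sh {m : ℕ} (h : MvPolynomial (Fin m) k) (p : MvPolynomial (Fin (m + 1)) k) :
    finSuccEquiv k m (sh h p) = Polynomial.taylor h (finSuccEquiv k m p) := by
  unfold sh
  rw [AlgEquiv.trans_apply, AlgEquiv.apply_symm_apply]
  rfl

/-- The shear, as a substitution. -/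
noncomputable def shX {m : ℕ} (h : MvPolynomial (Fin m) k) (i : Fin (m + 1)) :
    MvPolynomial (Fin (m + 1)) k :=
  if i = 0 then X i + up h else X i

lemma sh_eq {m : ℕ} (h : MvPolynomial (Fin m) k) (p : MvPolynomial (Fin (m + 1)) k) :
    sh h p = bind₁ (shX h) p := by
  have h1 : (sh h : MvPolynomial (Fin (m + 1)) k →ₐ[k] MvPolynomial (Fin (m + 1)) k) =
      bind₁ (shX h) := by
    apply MvPolynomial.algHom_ext
    intro i
    rw [bind₁_X_right]
    apply (finSuccEquiv k m).injective
    change finSuccEquiv k m (sh h (X i)) = _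
    rw [finSucc_sh]
    refine Fin.cases ?_ (fun i => ?_) i
    · rw [shX, if_pos rfl, finSuccEquiv_X_zero, Polynomial.taylor_X, map_add, finSuccEquiv_X_zero,
        finSucc_up]
    · rw [shX, if_neg (Fin.succ_ne_zero i), finSuccEquiv_X_succ, Polynomial.taylor_C]
  exact DFunLike.congr_fun h1 p

lemma deg_bind' {σ τ R : Type} [CommRing R] (q : σ → MvPolynomial τ R) {M : ℕ}
    (hq : ∀ i, (q i).totalDegree ≤ M) (F : MvPolynomial σ R) :
    (bind₁ q F).totalDegree ≤ F.totalDegree * M := by
  have h1 : bind₁ q F = ∑ s ∈ F.support, C (coeff s F) * ∏ i ∈ s.support, q i ^ s i := by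
    rw [← aeval_eq_bind₁, aeval_def, eval₂_eq]
    rfl
  rw [h1]
  refine totalDegree_finsetSum_le fun s hs => ?_
  refine (totalDegree_mul _ _).trans ?_
  rw [totalDegree_C, zero_add]
  refine (totalDegree_finsetProd _ _).trans ?_
  refine (Finset.sum_le_sum fun i _ => (totalDegree_pow _ _).trans
    (Nat.mul_le_mul_left _ (hq i))).trans ?_
  rw [← Finset.sum_mul]
  exact Nat.mul_le_mul_right _ (le_totalDegree hs)

lemma deg_sh {m : ℕ} (h : MvPolynomial (Fin m) k) {M : ℕ} (hM : 1 ≤ M) (hh : h.totalDegree ≤ M)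
    (p : MvPolynomial (Fin (m + 1)) k) : (sh h p).totalDegree ≤ p.totalDegree * M := by
  rw [sh_eq]
  refine deg_bind' _ (fun i => ?_) p
  unfold shX
  split_ifs
  · exact (totalDegree_add _ _).trans (max_le ((totalDegree_X _).le.trans hM)
      ((deg_up h).trans hh))
  · exact (totalDegree_X _).le.trans hM

lemma sh_coprime {m : ℕ} {p : MvPolynomial (Fin (m + 1)) k} (hp : Irreducible p)
    (h0 : 0 < p.degreeOf 0) {a b : MvPolynomial (Fin m) k}
    (h : Polynomial.taylor (a - b) (finSuccEquiv k m p) ≠ finSuccEquiv k m p) :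
    IsRelPrime (sh a p) (sh b p) := by
  have h1 : ∀ a : MvPolynomial (Fin m) k, Irreducible (sh a p) := fun a =>
    (MulEquiv.irreducible_iff (sh a)).mpr hp
  rw [(h1 a).isRelPrime_iff_not_dvd]
  intro h2
  have h3 := (h1 a).associated_of_dvd (h1 b) h2
  have h4 : Associated (finSuccEquiv k m (sh a p)) (finSuccEquiv k m (sh b p)) :=
    h3.map (finSuccEquiv k m)
  rw [finSucc_sh, finSucc_sh] at h4
  exact not_assoc' (by rwa [natDegree_finSuccEquiv]) h h4

/-- The polynomials `x_0^t (a_0 + a_1 x_0 + … + a_(e-1) x_0^(e-1))`. -/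
noncomputable def fam {m : ℕ} (t e : ℕ) (a : Fin e → k) : MvPolynomial (Fin (m + 1)) k :=
  X 0 ^ t * ∑ l : Fin e, C (a l) * X 0 ^ (l : ℕ)

lemma fam_sub {m t e : ℕ} (a b : Fin e → k) :
    (fam t e a : MvPolynomial (Fin (m + 1)) k) - fam t e b = fam t e (a - b) := by
  unfold fam
  rw [← mul_sub, ← Finset.sum_sub_distrib]
  congr 1
  refine Finset.sum_congr rfl fun l _ => ?_
  rw [Pi.sub_apply, C_sub, sub_mul]

lemma fam_deg {m t e : ℕ} (a : Fin e → k) :
    (fam t e a : MvPolynomial (Fin (m + 1)) k).totalDegree ≤ t + e := by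
  unfold fam
  refine (totalDegree_mul _ _).trans (add_le_add ?_ ?_)
  · refine (totalDegree_pow _ _).trans ?_
    rw [totalDegree_X, mul_one]
  · refine totalDegree_finsetSum_le fun l _ => ?_
    refine (totalDegree_mul _ _).trans ?_
    rw [totalDegree_C, zero_add]
    refine (totalDegree_pow _ _).trans ?_
    rw [totalDegree_X, mul_one]
    exact l.2.le

/-- Non-zero members have degree at least `t`. -/
lemma fam_big {m t e : ℕ} {a : Fin e → k} (ha : a ≠ 0) :
    t ≤ (fam t e a : MvPolynomial (Fin (m + 1)) k).totalDegree := by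
  obtain ⟨l, hl⟩ := Function.ne_iff.mp ha
  have h1 : coeff (Finsupp.single 0 (t + l)) (fam t e a : MvPolynomial (Fin (m + 1)) k) = a l := by
    unfold fam
    rw [Finset.mul_sum, coeff_sum, Finset.sum_eq_single l]
    · rw [mul_comm, mul_assoc, ← pow_add, coeff_C_mul, add_comm (l : ℕ) t, coeff_X_pow, if_pos rfl,
        mul_one]
    · intro l' _ hll
      rw [mul_comm, mul_assoc, ← pow_add, coeff_C_mul, coeff_X_pow, if_neg, mul_zero]
      intro h
      have h2 := DFunLike.congr_fun h 0
      rw [Finsupp.single_eq_same, Finsupp.single_eq_same] at h2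
      exact hll (Fin.ext (by omega))
    · intro h
      exact absurd (Finset.mem_univ l) h
  have h2 : Finsupp.single 0 (t + l) ∈ (fam t e a : MvPolynomial (Fin (m + 1)) k).support := by
    rw [mem_support_iff, h1]
    exact hl
  have h3 := le_totalDegree h2
  rw [Finsupp.sum_single_index rfl] at h3
  omega

/-- A good family of shears. -/
lemma fam_good {m : ℕ} {p : MvPolynomial (Fin (m + 2)) k} (h0 : 0 < p.degreeOf 0) :
    ∃ t : ℕ, ∀ (e : ℕ) (a b : Fin e → k), a ≠ b →
      Polynomial.taylor ((fam t e a : MvPolynomial (Fin (m + 1)) k) - fam t e b)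
        (finSuccEquiv k (m + 1) p) ≠ finSuccEquiv k (m + 1) p := by
  have h1 := fix_finite (G := finSuccEquiv k (m + 1) p) (by rwa [natDegree_finSuccEquiv])
  obtain ⟨t, ht⟩ := (h1.image fun h => h.totalDegree).bddAbove
  refine ⟨t + 1, fun e a b hab h2 => ?_⟩
  rw [fam_sub] at h2
  have h3 := ht (Set.mem_image_of_mem (fun h : MvPolynomial (Fin (m + 1)) k => h.totalDegree) h2)
  have h4 := fam_big (m := m) (t := t + 1) (sub_ne_zero.mpr hab)
  have h5 : (fam (t + 1) e (a - b) : MvPolynomial (Fin (m + 1)) k).totalDegree ≤ t := h3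
  omega

end shear

end Pool.Agent.Helper24.KG
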