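import Pool.Agent.Helper24.KF.Ker

/-!
# Weight complexes whose terms are direct summands
-/

set_option autoImplicit false
set_option linter.unusedSectionVars false

open CategoryTheory Limits AlgebraicGeometry MvPolynomial Pool.Agent.Y116.UV
  Pool.Agent.Q282.UM Pool.Agent.Q282.UK Pool.Agent.Helper62.EC Pool.Agent.Helper24.KD
  Pool.Agent.Helper24.KE Pool.Agent.Helper24.KF

open Pool.Agent.Helper24.KZ (alt FinSupp alt_add alt_shift alt_two alt_eq_sum Bdd SumOf)

namespace Pool.Agent.Helper24.KG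

universe w w' v u

/-- The known properties of the weight complexes `W(X)` with compact supports, over a perfect field:

* `tw_zero`, `tw_add`: the twists;
* `iso`, `triangle`: isomorphic schemes, and the localization triangles `W(U) → W(X) → W(Z)`;
* `bundle`: if `U` is the union of the open sets `f_i ≠ 0` of `Spec B`, `i = 1, …, m`, then
  `∑ x_i f_i = 1` is an affine bundle of rank `m - 1` over `U`;
* `projective`: `W(X) = h(X)` for smooth projective `X`;
* `terms`: if `dim X ≤ N`, then `W(X)` is a bounded complex whose terms are direct summands of sums of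
  motives `h(Y)`, where `Y` is smooth and projective of dimension at most `N`. -/
structure IsWeightsF {k : Type} [Field k] {C : Type u} [Category.{v} C] [Preadditive C]
    [HasZeroObject C] [HasBinaryBiproducts C] (D : Weights k C) : Prop where
  tw_zero : Nonempty (D.tw 0 ≅ 𝟭 C)
  tw_add : ∀ m n : ℤ, Nonempty (D.tw (m + n) ≅ D.tw m ⋙ D.tw n)
  iso : ∀ {X Y : Sch k}, FT True X → Nonempty (X ≅ Y) → Nonempty (D.W X ≅ D.W Y)
  triangle : ∀ {Z X U : Sch k} (i : Z ⟶ X) (j : U ⟶ X), FT True X → IsTriple i j →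
    IsDistinguished (D.W U) (D.W X) (D.W Z)
  bundle : ∀ (B : Type) [CommRing B] [Algebra k B] [Algebra.FiniteType k B] (m : ℕ)
    (f : Fin m → B) (U : Sch k) (j : U ⟶ aff k B), IsComplementOf f j →
    Nonempty (D.W (jouS f) ≅ onHK (D.tw (1 - m)) (D.W U))
  projective : ∀ X : Sch k, IsSmoothProjective X → Nonempty (D.W X ≅ inZero (D.h X))
  terms : ∀ X : Sch k, FT True X → ∀ N : ℕ, topologicalKrullDim X.left ≤ N →
    ∃ K : CochainComplex C ℤ, Bdd K ∧ Nonempty (D.W X ≅ toHK K) ∧
      ∀ i, ∃ (M : C) (a : K.X i ⟶ M) (b : M ⟶ K.X i), a ≫ b = 𝟙 _ ∧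
        SumOf (fun M => ∃ Y : Sch k, IsSmoothProjective Y ∧
          topologicalKrullDim Y.left ≤ N ∧ Nonempty (D.h Y ≅ M)) M

section

variable {C : Type u} [Category.{v} C] [Preadditive C] [HasBinaryBiproducts C] [HasZeroObject C]
  [HasFiniteBiproducts C] {T : HK C → ℤ → Prop} (hT : TD T) {k : Type} [Field k]
  {D : Weights k C} (hD : IsWeightsF D)

include hT hD

theorem dfcF (n : ℤ) : Dfc True (QT T D n) where
  iso hX e h := by
    obtain ⟨e⟩ := hD.iso hX e
    exact hT.iso ⟨((D.tw n).mapHomotopyCategory (ComplexShape.up ℤ)).mapIso e⟩ h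
  total i j a b h ht hZ hU := by
    have h1 := hT.mid (onHK_triangle (D.tw n) (hD.triangle i j h ht)) hU hZ
    rwa [add_comm] at h1
  opened i j a b h ht hZ hX := hT.first (onHK_triangle (D.tw n) (hD.triangle i j h ht)) hX hZ
  closed i j a b h ht hX hU := hT.third (onHK_triangle (D.tw n) (hD.triangle i j h ht)) hU hX
  uniq h1 h2 := hT.uniq h1 h2

lemma twistF {X Y : Sch k} {m : ℤ} (e : Nonempty (D.W X ≅ onHK (D.tw m) (D.W Y))) (n c : ℤ) :
    QT T D n X c ↔ QT T D (m + n) Y c := by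
  obtain ⟨e⟩ := e
  obtain ⟨e1⟩ := hD.tw_add m n
  obtain ⟨e2⟩ := onHK_comp e1 (D.W Y)
  have h1 : onHK (D.tw n) (D.W X) ≅ onHK (D.tw (m + n)) (D.W Y) :=
    ((D.tw n).mapHomotopyCategory (ComplexShape.up ℤ)).mapIso e ≪≫ e2.symm
  exact ⟨fun h => hT.iso ⟨h1⟩ h, fun h => hT.iso ⟨h1.symm⟩ h⟩

lemma bundleF {B : Type} [CommRing B] [Algebra k B] [Algebra.FiniteType k B] {m : ℕ}
    {g : Fin m → B} {U : Sch k} {j : U ⟶ aff k B} (hj : IsComplementOf g j) (n c : ℤ) :
    QT T D (n + (m - 1)) (jouS g) c ↔ QT T D n U c := by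
  rw [twistF hT hD (hD.bundle B m g U j hj)]
  rw [show (1 - (m : ℤ)) + (n + (m - 1)) = n by ring]

/-- The affine spaces. -/
lemma spaceF (hp : ∀ n, QT T D n (aff k k) 0) (n : ℤ) (r : ℕ) :
    QT T D n (aff k (MvPolynomial (Fin r) k)) 0 := by
  have h1 := (bundleF hT hD (compl_id (k := k) k r) (n - r) 0).mpr (hp _)
  have h2 : n - r + (((r + 1 : ℕ) : ℤ) - 1) = n := by push_cast; ring
  rw [h2] at h1
  exact isoQ (dfcF hT hD n) (jouOne k r) h1

/-- The affine line over a scheme. -/
lemma lineF {B : Type} [CommRing B] [Algebra k B] [Algebra.FiniteType k B] (n c : ℤ) :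
    QT T D (n + 1) (aff k (Polynomial B)) c ↔ QT T D n (aff k B) c := by
  have h1 := bundleF hT hD (compl_id (k := k) B 1) n c
  have h2 : n + (((1 + 1 : ℕ) : ℤ) - 1) = n + 1 := by norm_num
  rw [h2] at h1
  rw [← h1]
  have e : Jou (f1 B 1) ≃ₐ[k] Polynomial B :=
    ((jouOne B 1).trans (MvPolynomial.uniqueAlgEquiv B (Fin 1))).restrictScalars k
  constructor
  · intro h3
    exact isoQ (dfcF hT hD (n + 1)) e.symm h3
  · intro h3
    have : Algebra.FiniteType k (Jou (f1 B 1)) :=
      Algebra.FiniteType.trans (S := B) inferInstance inferInstance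
    exact isoQ (dfcF hT hD (n + 1)) e h3

omit hT hD [HasFiniteBiproducts C] [HasBinaryBiproducts C] [HasZeroObject C] in
/-- Cylinders. -/
lemma cyl_equiv {m : ℕ} (g : MvPolynomial (Fin m) k) :
    Nonempty (Polynomial (MvPolynomial (Fin m) k ⧸ Ideal.span {g}) ≃ₐ[k]
      (MvPolynomial (Fin (m + 1)) k ⧸ Ideal.span {up g})) := by
  have h1 : Ideal.map (Polynomial.C : MvPolynomial (Fin m) k →+* _) (Ideal.span {g}) =
      Ideal.map (finSuccEquiv k m : MvPolynomial (Fin (m + 1)) k →+* _) (Ideal.span {up g}) := by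
    rw [Ideal.map_span, Ideal.map_span, Set.image_singleton, Set.image_singleton]
    congr 2
    exact (finSucc_up g).symm
  let e1 := Ideal.quotientEquivAlg (Ideal.span {up g}) _ (finSuccEquiv k m) h1
  let e2 := Ideal.polynomialQuotientEquivQuotientPolynomial (Ideal.span {g})
  refine ⟨(AlgEquiv.ofRingEquiv (f := e2) ?_).trans e1.symm⟩
  intro r
  have h2 : algebraMap k (Polynomial (MvPolynomial (Fin m) k ⧸ Ideal.span {g})) r =
      (Polynomial.C (C r : MvPolynomial (Fin m) k)).map (Ideal.Quotient.mk (Ideal.span {g})) := by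
    rw [Polynomial.map_C]
    rfl
  rw [h2]
  exact Ideal.polynomialQuotientEquivQuotientPolynomial_map_mk _ _

/-- Cylinders over hypersurfaces. -/
lemma cylF {m : ℕ} (g : MvPolynomial (Fin m) k) (n c : ℤ) :
    QT T D (n + 1) (V (up g)) c ↔ QT T D n (V g) c := by
  refine Iff.trans ?_ (lineF hT hD n c)
  obtain ⟨e⟩ := cyl_equiv g
  exact ⟨fun h => isoQ (dfcF hT hD (n + 1)) e.symm h, fun h => by
    have : Algebra.FiniteType k (Polynomial (MvPolynomial (Fin m) k ⧸ Ideal.span {g})) :=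
      Algebra.FiniteType.trans (S := MvPolynomial (Fin m) k ⧸ Ideal.span {g})
        inferInstance inferInstance
    exact isoQ (dfcF hT hD (n + 1)) e h⟩

lemma projF {n : ℤ} {X : Sch k} (hX : IsSmoothProjective X) {c : ℤ} (h : QT T D n X c) :
    T (inZero ((D.tw n).obj (D.h X))) c := by
  obtain ⟨e⟩ := hD.projective X hX
  refine hT.iso ⟨((D.tw n).mapHomotopyCategory (ComplexShape.up ℤ)).mapIso e ≪≫ ?_⟩ h
  exact (HomotopyCategory.quotient C (ComplexShape.up ℤ)).mapIso
    ((HomologicalComplex.singleMapHomologicalComplex (D.tw n) (ComplexShape.up ℤ) 0).app (D.h X))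

end

section functors

variable {C : Type u} [Category.{v} C] [Preadditive C] [HasBinaryBiproducts C] [HasZeroObject C]
  {𝕜 : Type w} [Field 𝕜] {F : C ⥤ ModuleCat.{w} 𝕜} [F.Additive] [HasFiniteBiproducts C]
  {k : Type} [Field k] {D : Weights k C} (hD : IsWeightsF D)

include hD

/-- Vanishing for smooth projective schemes. -/
theorem one_zeroF {n : ℤ} {N : ℕ} (h : ∀ Y : Sch k, IsSmoothProjective Y →
    topologicalKrullDim Y.left ≤ N → Subsingleton (F.obj ((D.tw n).obj (D.h Y)))) (X : Sch k)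
    (hX : FT True X) (hN : topologicalKrullDim X.left ≤ N) : QT (TOne F) D n X 0 := by
  obtain ⟨K, hb, ⟨e⟩, hK⟩ := hD.terms X hX N hN
  have h1 : ∀ i, Subsingleton (F.obj ((D.tw n).obj (K.X i))) := fun i => by
    obtain ⟨M, a, b, hab, hM⟩ := hK i
    have h2 : Subsingleton (F.obj ((D.tw n).obj M)) := zero_sumOf (D.tw n) (by
      rintro M ⟨Y, a1, a2, ⟨e⟩⟩
      have := h Y a1 a2
      exact (F.mapIso ((D.tw n).mapIso e)).toLinearEquiv.symm.toEquiv.subsingleton) hM
    have h3 : IsZero (F.obj ((D.tw n).obj M)) := ModuleCat.isZero_of_subsingleton _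
    have h4 : IsZero (F.obj ((D.tw n).obj (K.X i))) := by
      rw [IsZero.iff_id_eq_zero, ← F.map_id, ← (D.tw n).map_id, ← hab, Functor.map_comp,
        Functor.map_comp, h3.eq_zero_of_tgt (F.map ((D.tw n).map a)), zero_comp]
    exact ModuleCat.subsingleton_of_isZero h4
  obtain ⟨a, b, hz⟩ := hb
  have h2 := alt_terms (F := F) (K := ((D.tw n).mapHomologicalComplex (ComplexShape.up ℤ)).obj K)
    ⟨a, b, fun i hi => (D.tw n).map_isZero (hz i hi)⟩ (fun i => by
      have := h1 i
      change Module.Finite 𝕜 (F.obj ((D.tw n).obj (K.X i)))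
      infer_instance)
  refine (tOne F).iso ⟨((D.tw n).mapHomotopyCategory (ComplexShape.up ℤ)).mapIso e.symm⟩
    ⟨h2.1, h2.2.trans ?_⟩
  have h8 : (fun i => Module.finrank 𝕜 (F.obj
      ((((D.tw n).mapHomologicalComplex (ComplexShape.up ℤ)).obj K).X i))) = fun _ => 0 := by
    funext i
    have := h1 i
    change Module.finrank 𝕜 (F.obj ((D.tw n).obj (K.X i))) = 0
    exact Module.finrank_zero_of_subsingleton
  rw [h8]
  unfold alt
  simp

end functors

end Pool.Agent.Helper24.KG
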